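import Pool.Agent.helper4.NF.SpecA

/-!
nf:DII, substitution in a double integral.
-/

set_option autoImplicit false

open Complex MeasureTheory

namespace Pool.Agent.NF

open Pool.Agent.helper84.DM Pool.Agent.helper78.ED Pool.Agent.DH Pool.Agent.ZD

theorem DII_ex : Continuous ex := by
  unfold ex
  fun_prop

theorem DII_int (F : ℝ × ℝ → ℂ) (hF : Continuous F)
    (h0 : ∀ p : ℝ × ℝ, ¬ (|p.1| ≤ 10 ∧ |p.2| ≤ 10) → F p = 0) :
    Integrable F ((volume : Measure ℝ).prod (volume : Measure ℝ)) := by
  refine hF.integrable_of_hasCompactSupport ?_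
  refine HasCompactSupport.intro ((isCompact_Icc (a := (-10 : ℝ)) (b := 10)).prod
    (isCompact_Icc (a := (-10 : ℝ)) (b := 10))) ?_
  intro p hp
  apply h0
  rintro ⟨h1, h2⟩
  exact hp ⟨abs_le.1 h1, abs_le.1 h2⟩

theorem DII : DII_stmt := by
  intro G Z hG hZ hG0 t
  have hex := DII_ex
  have hK : Integrable (Function.uncurry fun x₁ x₂ : ℝ =>
      G x₁ * (starRingEnd ℂ) (G x₂) * Z (x₁ - x₂) * ex (t * x₁ - t * x₂))
      ((volume : Measure ℝ).prod (volume : Measure ℝ)) := by
    refine DII_int _ ?_ ?_
    · simp only [Function.uncurry_def]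
      fun_prop
    · intro p hp
      simp only [Function.uncurry_def]
      rw [not_and_or, not_le, not_le] at hp
      rcases hp with h | h
      · rw [hG0 p.1 (by linarith)]
        simp
      · rw [hG0 p.2 (by linarith)]
        simp
  have hF : Integrable (Function.uncurry fun y a : ℝ =>
      ex (t * a) * Z a * (G (y + a) * (starRingEnd ℂ) (G y)))
      ((volume : Measure ℝ).prod (volume : Measure ℝ)) := by
    refine DII_int _ ?_ ?_
    · simp only [Function.uncurry_def]
      fun_prop
    · intro p hp
      simp only [Function.uncurry_def]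
      by_cases h1 : 5 < |p.1|
      · rw [hG0 p.1 h1]
        simp
      · rw [not_lt] at h1
        have h2 : 10 < |p.2| := by
          by_contra h
          exact hp ⟨by linarith, not_lt.1 h⟩
        have h3 : 5 < |p.1 + p.2| := by
          have := abs_sub_abs_le_abs_sub p.2 (-p.1)
          rw [abs_neg, sub_neg_eq_add, add_comm p.2 p.1] at this
          linarith
        rw [hG0 _ h3]
        simp
  rw [integral_integral_swap hK]
  have h1 : ∀ y : ℝ, ∫ x₁ : ℝ, G x₁ * (starRingEnd ℂ) (G y) * Z (x₁ - y) * ex (t * x₁ - t * y) =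
      ∫ a : ℝ, ex (t * a) * Z a * (G (y + a) * (starRingEnd ℂ) (G y)) := by
    intro y
    rw [← integral_add_left_eq_self
      (fun x₁ : ℝ => G x₁ * (starRingEnd ℂ) (G y) * Z (x₁ - y) * ex (t * x₁ - t * y)) y]
    refine integral_congr_ae (Filter.Eventually.of_forall fun a => ?_)
    dsimp only
    have e1 : y + a - y = a := by ring
    have e2 : t * (y + a) - t * y = t * a := by ring
    rw [e1, e2]
    ring
  simp only [h1]
  rw [integral_integral_swap hF]
  refine integral_congr_ae (Filter.Eventually.of_forall fun a => ?_)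
  dsimp only
  rw [integral_const_mul]

end Pool.Agent.NF
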